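import Mathlib
import Pool.Agent.R713.QuatExtend

/-!
# Invariant maximal nonnegative subspaces with a prescribed spectrum, quaternionic case
-/

set_option autoImplicit false

namespace Pool.Agent.T6.H18

open Quaternion MulOpposite Polynomial Pool.Agent.R713

/-- the real quadratic polynomial of a quaternion -/
noncomputable def chi (a : ℍ[ℝ]) : ℝ[X] := X ^ 2 - C (2 * a.re) * X + C (normSq a)

/-- the quaternion with given coordinates -/
def mk4 (a b c d : ℝ) : ℍ[ℝ] := ⟨a, b, c, d⟩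

theorem sim_star (a : ℍ[ℝ]) : ∃ q : ℍ[ℝ], q ≠ 0 ∧ star a * q = q * a := by
  have key : ∀ b c : ℝ, b * a.imI + c * a.imJ = 0 → star a * mk4 0 b c 0 = mk4 0 b c 0 * a := by
    intro b c h
    apply Quaternion.ext
    · rw [Quaternion.re_mul, Quaternion.re_mul, Quaternion.re_star, Quaternion.imI_star,
        Quaternion.imJ_star, Quaternion.imK_star]
      simp only [mk4]
      linear_combination (2 : ℝ) * h
    · rw [Quaternion.imI_mul, Quaternion.imI_mul, Quaternion.re_star, Quaternion.imI_star,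
        Quaternion.imJ_star, Quaternion.imK_star]
      simp only [mk4]
      ring
    · rw [Quaternion.imJ_mul, Quaternion.imJ_mul, Quaternion.re_star, Quaternion.imI_star,
        Quaternion.imJ_star, Quaternion.imK_star]
      simp only [mk4]
      ring
    · rw [Quaternion.imK_mul, Quaternion.imK_mul, Quaternion.re_star, Quaternion.imI_star,
        Quaternion.imJ_star, Quaternion.imK_star]
      simp only [mk4]
      ring
  by_cases h : a.imI = 0 ∧ a.imJ = 0
  · refine ⟨mk4 0 1 0 0, ?_, key 1 0 (by rw [h.1]; ring)⟩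
    intro h0
    have : (1 : ℝ) = 0 := congrArg (fun q : ℍ[ℝ] => q.imI) h0
    exact one_ne_zero this
  · refine ⟨mk4 0 (-a.imJ) a.imI 0, ?_, key _ _ (by ring)⟩
    intro h0
    apply h
    constructor
    · exact congrArg (fun q : ℍ[ℝ] => q.imJ) h0
    · have : -a.imJ = 0 := congrArg (fun q : ℍ[ℝ] => q.imI) h0
      linarith

/-- roots of `chi a` in terms of the real part and the norm -/
theorem aeval_chi (a : ℍ[ℝ]) (z : ℂ) :
    aeval z (chi a) = z ^ 2 - 2 * a.re * z + ((normSq a : ℝ) : ℂ) := by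
  simp [chi]

theorem re_sq_le (a : ℍ[ℝ]) : a.re ^ 2 ≤ normSq a := by
  rw [Quaternion.normSq_def']
  nlinarith [sq_nonneg a.imI, sq_nonneg a.imJ, sq_nonneg a.imK]

/-- a common root of `chi a` and `chi b` gives equality of the invariants -/
theorem common_root {a b : ℍ[ℝ]} {z : ℂ} (h1 : aeval z (chi a) = 0) (h2 : aeval z (chi b) = 0) :
    a.re = b.re ∧ normSq a = normSq b := by
  rw [aeval_chi] at h1 h2
  have a1 := congrArg Complex.re h1
  have a2 := congrArg Complex.im h1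
  have b1 := congrArg Complex.re h2
  have b2 := congrArg Complex.im h2
  simp [pow_two] at a1 a2 b1 b2
  have ha := re_sq_le a
  have hb := re_sq_le b
  by_cases hz : z.im = 0
  · rw [hz] at a1 b1
    have e1 : (z.re - a.re) ^ 2 + (normSq a - a.re ^ 2) = 0 := by linear_combination a1
    have e2 : (z.re - b.re) ^ 2 + (normSq b - b.re ^ 2) = 0 := by linear_combination b1
    have f1 : (z.re - a.re) ^ 2 = 0 := le_antisymm (by linarith) (sq_nonneg _)
    have f2 : (z.re - b.re) ^ 2 = 0 := le_antisymm (by linarith) (sq_nonneg _)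
    have g1 : z.re = a.re := by
      have := pow_eq_zero_iff (two_ne_zero) |>.1 f1
      linarith
    have g2 : z.re = b.re := by
      have := pow_eq_zero_iff (two_ne_zero) |>.1 f2
      linarith
    have : a.re = b.re := g1.symm.trans g2
    refine ⟨this, ?_⟩
    rw [this] at a1
    linarith
  · have g1 : z.re = a.re := by
      have : z.im * (z.re - a.re) = 0 := by linear_combination (1/2) * a2
      rcases mul_eq_zero.1 this with h | h
      · exact absurd h hz
      · linarith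
    have g2 : z.re = b.re := by
      have : z.im * (z.re - b.re) = 0 := by linear_combination (1/2) * b2
      rcases mul_eq_zero.1 this with h | h
      · exact absurd h hz
      · linarith
    have : a.re = b.re := g1.symm.trans g2
    refine ⟨this, ?_⟩
    rw [this] at a1
    linarith

theorem sq_eq' (x : ℍ[ℝ]) :
    x * x = ((2 * x.re : ℝ) : ℍ[ℝ]) * x - ((normSq x : ℝ) : ℍ[ℝ]) := by
  have h1 : x * star x = ((normSq x : ℝ) : ℍ[ℝ]) := Quaternion.self_mul_star x
  have h2 : x + star x = ((2 * x.re : ℝ) : ℍ[ℝ]) := Quaternion.self_add_star' x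
  have h3 : ((2 * x.re : ℝ) : ℍ[ℝ]) * x = x * x + x * star x := by
    rw [Quaternion.coe_commutes, ← h2, mul_add]
  rw [h3, h1, add_sub_cancel_right]

/-- quaternions with the same real part and norm are similar -/
theorem sim_of {a b : ℍ[ℝ]} (h1 : a.re = b.re) (h2 : normSq a = normSq b) :
    ∃ q : ℍ[ℝ], q ≠ 0 ∧ a * q = q * b := by
  have key : ∀ c : ℍ[ℝ], a * (a * c - c * star b) = (a * c - c * star b) * b := by
    intro c
    have e1 : star b * b = ((normSq b : ℝ) : ℍ[ℝ]) := Quaternion.star_mul_self b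
    have e2 : ((2 * b.re : ℝ) : ℍ[ℝ]) = b + star b := (Quaternion.self_add_star' b).symm
    have e3 := sq_eq' a
    rw [mul_sub, sub_mul, ← mul_assoc a a c, e3, h1, h2, mul_assoc c (star b) b, e1, sub_mul,
      mul_assoc _ a c, Quaternion.coe_commutes, e2, Quaternion.coe_commutes]
    noncomm_ring
  by_cases hall : ∀ c : ℍ[ℝ], a * c - c * star b = 0
  · refine ⟨1, one_ne_zero, ?_⟩
    have h3 : a = star b := by
      have := hall 1
      rw [mul_one, one_mul, sub_eq_zero] at this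
      exact this
    obtain ⟨q, hq, hq2⟩ := sim_star b
    have h4 := hall q
    rw [sub_eq_zero, h3, hq2] at h4
    -- `q * b = q * star b`
    have h5 : b = star b := mul_left_cancel₀ hq h4
    rw [mul_one, one_mul, h3, ← h5]
  · push Not at hall
    obtain ⟨c, hc⟩ := hall
    exact ⟨_, hc, key c⟩

theorem coprime_chi {a b : ℍ[ℝ]} (h : ¬ (a.re = b.re ∧ normSq a = normSq b)) :
    IsCoprime (chi a) (chi b) := by
  rw [Polynomial.isCoprime_iff_aeval_ne_zero_of_isAlgClosed ℝ ℂ]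
  intro z
  by_contra hc
  push Not at hc
  exact h (common_root hc.1 hc.2)

/-- `chi a (-X) = chi (-a)` -/
theorem chi_comp_neg (a : ℍ[ℝ]) : (chi a).comp (-X) = chi (-a) := by
  simp [chi]

section

variable {V : Type*} [AddCommGroup V] [Module ℍ[ℝ]ᵐᵒᵖ V] [Module ℝ V] [IsScalarTower ℝ ℍ[ℝ]ᵐᵒᵖ V]
  [SMulCommClass ℍ[ℝ]ᵐᵒᵖ ℝ V]

theorem real_smul_left {G : V → V → ℍ[ℝ]} (h : QHerm G) (r : ℝ) (x y : V) :
    G (r • x) y = (r : ℍ[ℝ]) * G x y := by
  rw [← op_real_smul, h.smul_left, Quaternion.star_coe]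

theorem real_smul_right {G : V → V → ℍ[ℝ]} (h : QHerm G) (r : ℝ) (x y : V) :
    G x (r • y) = (r : ℍ[ℝ]) * G x y := by
  rw [← op_real_smul, h.smul_right, Quaternion.coe_commutes]

theorem pow_adj {G : V → V → ℍ[ℝ]} (B B' : Module.End ℍ[ℝ]ᵐᵒᵖ V)
    (hB : ∀ x y, G (B x) y = G x (B' y)) (n : ℕ) (x y : V) :
    G ((B ^ n) x) y = G x ((B' ^ n) y) := by
  induction n generalizing x y with
  | zero => simp
  | succ n ih =>
    rw [pow_succ', Module.End.mul_apply, hB, ih, pow_succ, Module.End.mul_apply]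

theorem neg_pow_apply_adj {G : V → V → ℍ[ℝ]} (h : QHerm G) (A : Module.End ℍ[ℝ]ᵐᵒᵖ V)
    (hA : ∀ x y, G (A x) y = -G x (A y)) (x y : V) : G (A x) y = G x ((-A) y) := by
  rw [hA, LinearMap.neg_apply, h.neg_right]

/-- the adjoint of a real polynomial in `A` -/
theorem aeval_adj {G : V → V → ℍ[ℝ]} (h : QHerm G) (A : Module.End ℍ[ℝ]ᵐᵒᵖ V)
    (hA : ∀ x y, G (A x) y = -G x (A y)) (p : ℝ[X]) (x y : V) :
    G (aeval A p x) y = G x (aeval A (p.comp (-X)) y) := by
  have key : aeval A (p.comp (-X)) = aeval (-A) p := by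
    rw [aeval_comp]
    simp
  rw [key]
  induction p using Polynomial.induction_on' generalizing x y with
  | add p q hp hq =>
    have e1 : aeval A (p.comp (-X)) = aeval (-A) p := by rw [aeval_comp]; simp
    have e2 : aeval A (q.comp (-X)) = aeval (-A) q := by rw [aeval_comp]; simp
    rw [map_add, map_add, LinearMap.add_apply, LinearMap.add_apply, h.add_left, h.add_right,
      hp x y e1, hq x y e2]
  | monomial n a =>
    rw [aeval_monomial, aeval_monomial]
    simp only [Module.End.mul_apply, Module.algebraMap_end_apply]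
    rw [real_smul_left h, real_smul_right h,
      pow_adj A (-A) (fun x y => neg_pow_apply_adj h A hA x y)]

/-- the eigenvalues of the restriction of `A` to `M` -/
def Eig (A : Module.End ℍ[ℝ]ᵐᵒᵖ V) (M : Submodule ℍ[ℝ]ᵐᵒᵖ V) : Set ℍ[ℝ] :=
  {a | ∃ x ∈ M, x ≠ 0 ∧ A x = op a • x}

/-- the first three properties of a c-set -/
def PreC (A : Module.End ℍ[ℝ]ᵐᵒᵖ V) (S : Set ℍ[ℝ]) : Prop :=
  (∀ a ∈ S, a ∈ Eig A ⊤ ∧ a.re ≠ 0) ∧ (∀ a ∈ S, ∀ q : ℍ[ℝ], q ≠ 0 → q⁻¹ * a * q ∈ S) ∧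
    ∀ a ∈ S, -a ∉ S

theorem PreC.sim {A : Module.End ℍ[ℝ]ᵐᵒᵖ V} {S : Set ℍ[ℝ]} (h : PreC A S) {a b : ℍ[ℝ]}
    (ha : a ∈ S) (h1 : a.re = b.re) (h2 : normSq a = normSq b) : b ∈ S := by
  obtain ⟨q, hq, hab⟩ := sim_of h1 h2
  have : b = q⁻¹ * a * q := by
    rw [mul_assoc, hab, ← mul_assoc, inv_mul_cancel₀ hq, one_mul]
  rw [this]
  exact h.2.1 a ha q hq

/-- the root space -/
noncomputable def rt (A : Module.End ℍ[ℝ]ᵐᵒᵖ V) (a : ℍ[ℝ]) : Submodule ℍ[ℝ]ᵐᵒᵖ V :=
  ⨆ n : ℕ, LinearMap.ker ((aeval A (chi a)) ^ n)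

theorem mem_rt {A : Module.End ℍ[ℝ]ᵐᵒᵖ V} {a : ℍ[ℝ]} {x : V} :
    x ∈ rt A a ↔ ∃ n : ℕ, ((aeval A (chi a)) ^ n) x = 0 := by
  rw [rt, Submodule.mem_iSup_of_directed]
  · simp only [LinearMap.mem_ker]
  · apply Monotone.directed_le
    intro m n hmn z hz
    rw [LinearMap.mem_ker] at hz ⊢
    obtain ⟨k, rfl⟩ := Nat.exists_eq_add_of_le hmn
    rw [add_comm, pow_add, Module.End.mul_apply, hz, map_zero]

theorem A_comm (A : Module.End ℍ[ℝ]ᵐᵒᵖ V) (p : ℝ[X]) (x : V) :
    aeval A p (A x) = A (aeval A p x) := by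
  have h : aeval A p * A = A * aeval A p := by
    have h1 : aeval A (p * X) = aeval A (X * p) := by rw [mul_comm]
    rwa [map_mul, map_mul, aeval_X] at h1
  exact LinearMap.congr_fun h x

theorem A_comm_pow (A : Module.End ℍ[ℝ]ᵐᵒᵖ V) (p : ℝ[X]) (n : ℕ) (x : V) :
    ((aeval A p) ^ n) (A x) = A (((aeval A p) ^ n) x) := by
  rw [← map_pow]
  exact A_comm A _ x

theorem rt_inv (A : Module.End ℍ[ℝ]ᵐᵒᵖ V) (a : ℍ[ℝ]) : ∀ x ∈ rt A a, A x ∈ rt A a := by
  intro x hx
  rw [mem_rt] at hx ⊢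
  obtain ⟨n, hn⟩ := hx
  exact ⟨n, by rw [A_comm_pow, hn, map_zero]⟩

theorem aeval_chi_apply (A : Module.End ℍ[ℝ]ᵐᵒᵖ V) (a : ℍ[ℝ]) (x : V) :
    aeval A (chi a) x =
      A (A x) - op ((2 * a.re : ℝ) : ℍ[ℝ]) • A x + op ((normSq a : ℝ) : ℍ[ℝ]) • x := by
  rw [op_real_smul, op_real_smul]
  simp only [chi, map_add, map_sub, map_mul, aeval_X, aeval_C, LinearMap.add_apply,
    LinearMap.sub_apply, Module.End.mul_apply, Module.algebraMap_end_apply, pow_two]
  rw [mul_smul]

theorem eig_mem_rt {A : Module.End ℍ[ℝ]ᵐᵒᵖ V} {a : ℍ[ℝ]} {x : V} (h : A x = op a • x) :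
    aeval A (chi a) x = 0 := by
  rw [aeval_chi_apply, h, map_smul, h, smul_smul, smul_smul, ← sub_smul, ← add_smul, ← op_mul,
    ← op_mul, ← op_sub, ← op_add]
  have : a * a - a * ((2 * a.re : ℝ) : ℍ[ℝ]) + ((normSq a : ℝ) : ℍ[ℝ]) = 0 := by
    rw [sq_eq', Quaternion.coe_commutes]
    abel
  rw [this, op_zero, zero_smul]

/-- `chi a (A)` is injective on an invariant subspace without an eigenvalue similar to `a` -/
theorem inj_of {A : Module.End ℍ[ℝ]ᵐᵒᵖ V} {M : Submodule ℍ[ℝ]ᵐᵒᵖ V} (hM : ∀ x ∈ M, A x ∈ M)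
    {a : ℍ[ℝ]} (ha : ∀ b ∈ Eig A M, ¬ (b.re = a.re ∧ normSq b = normSq a)) {y : V} (hy : y ∈ M)
    (h0 : aeval A (chi a) y = 0) : y = 0 := by
  by_contra hy0
  by_cases hx : A y - op (star a) • y = 0
  · refine ha (star a) ⟨y, hy, hy0, sub_eq_zero.1 hx⟩ ⟨by simp, ?_⟩
    rw [Quaternion.normSq_star]
  · refine ha a ⟨_, M.sub_mem (hM y hy) (M.smul_mem _ hy), hx, ?_⟩ ⟨rfl, rfl⟩
    rw [aeval_chi_apply] at h0
    have e1 : ((2 * a.re : ℝ) : ℍ[ℝ]) = a + star a := (Quaternion.self_add_star' a).symm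
    have e2 : star a * a = ((normSq a : ℝ) : ℍ[ℝ]) := Quaternion.star_mul_self a
    rw [e1, op_add, add_smul, ← e2] at h0
    rw [map_sub, map_smul, smul_sub, smul_smul, ← op_mul]
    rw [← sub_eq_zero]
    rw [← h0]
    abel

variable [Module.Finite ℍ[ℝ]ᵐᵒᵖ V]

/-- and then it is surjective -/
theorem surj_of {A : Module.End ℍ[ℝ]ᵐᵒᵖ V} {M : Submodule ℍ[ℝ]ᵐᵒᵖ V} (hM : ∀ x ∈ M, A x ∈ M)
    (B : Module.End ℍ[ℝ]ᵐᵒᵖ V) (hB : ∀ x ∈ M, B x ∈ M) (hi : ∀ x ∈ M, B x = 0 → x = 0) (n : ℕ)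
    {y : V} (hy : y ∈ M) : ∃ z ∈ M, (B ^ n) z = y := by
  have h1 : Function.Injective (B.restrict hB) := by
    rw [← LinearMap.ker_eq_bot, LinearMap.ker_eq_bot']
    intro m hm
    have := congrArg Subtype.val hm
    exact Subtype.ext (hi m m.2 this)
  have h2 : Function.Surjective (B.restrict hB) := LinearMap.injective_iff_surjective.1 h1
  induction n generalizing y with
  | zero => exact ⟨y, hy, by simp⟩
  | succ n ih =>
    obtain ⟨w, hw, hw2⟩ := ih hy
    obtain ⟨z, hz⟩ := h2 ⟨w, hw⟩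
    refine ⟨z, z.2, ?_⟩
    have h3 : B z = w := congrArg Subtype.val hz
    rw [pow_succ, Module.End.mul_apply, h3, hw2]

theorem aeval_mem' (A : Module.End ℍ[ℝ]ᵐᵒᵖ V) (R : Submodule ℍ[ℝ]ᵐᵒᵖ V) (hR : ∀ x ∈ R, A x ∈ R)
    (a : ℍ[ℝ]) : ∀ x ∈ R, aeval A (chi a) x ∈ R := by
  intro x hx
  rw [aeval_chi_apply]
  exact R.add_mem (R.sub_mem (hR _ (hR _ hx)) (R.smul_mem _ (hR _ hx))) (R.smul_mem _ hx)

/-- orthogonality of a root space and an invariant subspace -/
theorem orth1 {G : V → V → ℍ[ℝ]} (h : QHerm G) (A : Module.End ℍ[ℝ]ᵐᵒᵖ V)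
    (hA : ∀ x y, G (A x) y = -G x (A y)) {a : ℍ[ℝ]} {M : Submodule ℍ[ℝ]ᵐᵒᵖ V}
    (hM : ∀ x ∈ M, A x ∈ M) (ha : ∀ b ∈ Eig A M, ¬ (b.re = -a.re ∧ normSq b = normSq a)) :
    ∀ x ∈ rt A a, ∀ y ∈ M, G x y = 0 := by
  intro x hx y hy
  obtain ⟨n, hn⟩ := mem_rt.1 hx
  obtain ⟨z, hz, rfl⟩ := surj_of hM (aeval A (chi (-a))) (aeval_mem' A M hM (-a))
    (fun w hw hw0 => inj_of hM (a := -a) (fun b hb => by
      rw [Quaternion.re_neg, Quaternion.normSq_neg]
      exact ha b hb) hw hw0) n hy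
  have hadj : ∀ x y, G (aeval A (chi a) x) y = G x (aeval A (chi (-a)) y) := by
    intro x y
    rw [aeval_adj h A hA, chi_comp_neg]
  rw [← pow_adj _ _ hadj, hn, h.zero_left]

theorem eig_rt {A : Module.End ℍ[ℝ]ᵐᵒᵖ V} {a b : ℍ[ℝ]} (hb : b ∈ Eig A (rt A a)) :
    b.re = a.re ∧ normSq b = normSq a := by
  by_contra hne
  obtain ⟨x, hx, hx0, hxb⟩ := hb
  obtain ⟨n, hn⟩ := mem_rt.1 hx
  have hc : IsCoprime (chi b) ((chi a) ^ n) := (coprime_chi hne).pow_right
  obtain ⟨u, v, huv⟩ := hc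
  have h1 := congrArg (fun p => aeval A p x) huv
  simp only [map_add, map_mul, map_pow, LinearMap.add_apply, Module.End.mul_apply, map_one,
    Module.End.one_apply, eig_mem_rt hxb, hn, map_zero, add_zero] at h1
  exact hx0 h1.symm

/-- **Extension with a prescribed spectrum.** -/
theorem extend_cset [FiniteDimensional ℝ V] {G : V → V → ℍ[ℝ]} (h : QHerm G)
    (A : Module.End ℍ[ℝ]ᵐᵒᵖ V)
    (hA : ∀ x y, G (A x) y = -G x (A y)) (hker : ∀ x, (∀ y, G x y = 0) → A x = 0)
    (N : Submodule ℍ[ℝ]ᵐᵒᵖ V) (hN : ∀ x ∈ N, A x ∈ N)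
    (hneu : ∀ x ∈ N, ∀ y ∈ N, G x y = 0) (S : Set ℍ[ℝ]) (hS : PreC A S)
    (hmax : ∀ T, PreC A T → S ⊆ T → T = S) (hNS : ∀ a ∈ Eig A N, a.re ≠ 0 → a ∈ S) :
    ∃ L : Submodule ℍ[ℝ]ᵐᵒᵖ V, N ≤ L ∧ (∀ x ∈ L, A x ∈ L) ∧ QNonneg G L ∧
      (∀ M : Submodule ℍ[ℝ]ᵐᵒᵖ V, L ≤ M → QNonneg G M → M = L) ∧
      {a | a ∈ Eig A L ∧ a.re ≠ 0} = S := by
  -- the span of the root spaces of `S`
  let RS : Submodule ℍ[ℝ]ᵐᵒᵖ V := ⨆ a : S, rt A a
  have hRS : ∀ a ∈ S, rt A a ≤ RS := fun a ha => le_iSup (fun a : S => rt A a) ⟨a, ha⟩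
  have hRSinv : ∀ x ∈ RS, A x ∈ RS := by
    intro x hx
    have : RS ≤ RS.comap A := iSup_le fun a x hx => hRS a a.2 (rt_inv A a x hx)
    exact this hx
  -- the left orthogonal complement
  let perpL : Submodule ℍ[ℝ]ᵐᵒᵖ V → Submodule ℍ[ℝ]ᵐᵒᵖ V := fun M =>
    { carrier := {x | ∀ y ∈ M, G x y = 0}
      add_mem' := by
        intro a b ha hb x hx
        rw [h.add_left, ha x hx, hb x hx, add_zero]
      zero_mem' := fun x _ => h.zero_left x
      smul_mem' := by
        intro c a ha x hx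
        have : c • a = op (unop c) • a := by rw [op_unop]
        rw [this, h.smul_left, ha x hx, mul_zero] }
  have hsym : ∀ x y, G x y = 0 → G y x = 0 := fun x y hxy => by rw [h.symm x y, hxy, star_zero]
  -- `RS` is orthogonal to `N`
  have hRN : ∀ x ∈ RS, ∀ y ∈ N, G x y = 0 := by
    have : RS ≤ perpL N := by
      refine iSup_le fun a => orth1 h A hA hN ?_
      rintro b hb ⟨h1, h2⟩
      have hbre : b.re ≠ 0 := by
        rw [h1, neg_ne_zero]
        exact (hS.1 a a.2).2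
      have hbS := hNS b hb hbre
      refine hS.2.2 a a.2 (hS.sim hbS ?_ ?_)
      · rw [Quaternion.re_neg, h1]
      · rw [Quaternion.normSq_neg, h2]
    exact fun x hx => this hx
  -- `RS` is neutral
  have hRa : ∀ a : S, RS ≤ perpL (rt A a) := by
    intro a
    refine iSup_le fun b => orth1 h A hA (rt_inv A a) ?_
    rintro c hc ⟨h1, h2⟩
    obtain ⟨h3, h4⟩ := eig_rt hc
    refine hS.2.2 b b.2 (hS.sim a.2 ?_ ?_)
    · rw [Quaternion.re_neg, ← h1, h3]
    · rw [Quaternion.normSq_neg, ← h2, h4]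
  have hRR : ∀ x ∈ RS, ∀ y ∈ RS, G x y = 0 := by
    have : RS ≤ perpL RS := iSup_le fun a x hx y hy => hsym _ _ (hRa a hy x hx)
    exact fun x hx => this hx
  -- extension
  obtain ⟨L, h1, h2, h3, h4⟩ := extend_nonneg h A hA (N ⊔ RS) (by
      intro x hx
      obtain ⟨n, hn, r, hr, rfl⟩ := Submodule.mem_sup.1 hx
      rw [map_add]
      exact Submodule.add_mem_sup (hN n hn) (hRSinv r hr)) (by
      intro x hx y hy
      obtain ⟨n, hn, r, hr, rfl⟩ := Submodule.mem_sup.1 hx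
      obtain ⟨n', hn', r', hr', rfl⟩ := Submodule.mem_sup.1 hy
      rw [h.add_left, h.add_right, h.add_right, hneu n hn n' hn', hRR r hr r' hr',
        hRN r hr n' hn', hsym _ _ (hRN r' hr' n hn)]
      simp)
  refine ⟨L, le_sup_left.trans h1, h2, h3, h4, ?_⟩
  have hRL : RS ≤ L := le_sup_right.trans h1
  apply Set.Subset.antisymm
  · rintro a ⟨⟨x, hx, hx0, hxa⟩, hre⟩
    by_contra haS
    -- then `-a ∈ S`
    have hnS : -a ∈ S := by
      by_contra hnS
      let T : Set ℍ[ℝ] := S ∪ {b | b.re = a.re ∧ normSq b = normSq a}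
      have hT : PreC A T := by
        refine ⟨?_, ?_, ?_⟩
        · rintro b (hb | ⟨hb1, hb2⟩)
          · exact hS.1 b hb
          · refine ⟨?_, by rw [hb1]; exact hre⟩
            obtain ⟨q, hq, hab⟩ := sim_of hb1.symm hb2.symm
            refine ⟨op q • x, trivial, ?_, ?_⟩
            · rw [smul_ne_zero_iff]
              exact ⟨by simpa using hq, hx0⟩
            · rw [map_smul, hxa, smul_smul, smul_smul, ← op_mul, ← op_mul, hab]
        · rintro b (hb | ⟨hb1, hb2⟩) q hq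
          · exact Or.inl (hS.2.1 b hb q hq)
          · right
            constructor
            · rw [← hb1]
              have e1 : ∀ u v : ℍ[ℝ], (u * v).re = (v * u).re := by
                intro u v
                rw [Quaternion.re_mul, Quaternion.re_mul]
                ring
              rw [e1, ← mul_assoc, mul_inv_cancel₀ hq, one_mul]
            · rw [← hb2]
              rw [map_mul, map_mul, map_inv₀]
              have : normSq q ≠ 0 := by
                rw [Ne, Quaternion.normSq_eq_zero]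
                exact hq
              field_simp
        · rintro b (hb | ⟨hb1, hb2⟩) (hc | ⟨hc1, hc2⟩)
          · exact hS.2.2 b hb hc
          · rw [Quaternion.re_neg] at hc1
            rw [Quaternion.normSq_neg] at hc2
            refine hnS (hS.sim hb ?_ ?_)
            · rw [Quaternion.re_neg, ← hc1, neg_neg]
            · rw [Quaternion.normSq_neg, hc2]
          · refine hnS (hS.sim hc ?_ ?_)
            · rw [Quaternion.re_neg, Quaternion.re_neg, hb1]
            · rw [Quaternion.normSq_neg, Quaternion.normSq_neg, hb2]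
          · rw [Quaternion.re_neg, hb1] at hc1
            apply hre
            linarith
      have := hmax T hT Set.subset_union_left
      apply haS
      rw [← this]
      exact Or.inr ⟨rfl, rfl⟩
    -- `x` is neutral
    have hxx : (G x x).re = 0 := by
      have e1 := hA x x
      rw [hxa, h.smul_left, h.smul_right, h.real x] at e1
      have e2 := congrArg (fun q : ℍ[ℝ] => q.re) e1
      simp at e2
      have e3 : a.re * (G x x).re = 0 := by linarith
      rcases mul_eq_zero.1 e3 with e4 | e4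
      · exact absurd e4 hre
      · exact e4
    -- `x` is orthogonal to everything
    have hall : ∀ y, G x y = 0 := by
      intro y
      have hfit := LinearMap.isCompl_iSup_ker_pow_iInf_range_pow (aeval A (chi (-a)))
      have hy : y ∈ (⨆ n : ℕ, LinearMap.ker ((aeval A (chi (-a))) ^ n)) ⊔
          (⨅ n : ℕ, LinearMap.range ((aeval A (chi (-a))) ^ n)) := by
        rw [hfit.sup_eq_top]
        trivial
      obtain ⟨y1, hy1, y2, hy2, rfl⟩ := Submodule.mem_sup.1 hy
      rw [h.add_right]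
      have g1 : G x y1 = 0 := h.cs h3 hx (hRL (hRS _ hnS hy1)) hxx
      have g2 : G x y2 = 0 := by
        rw [Submodule.mem_iInf] at hy2
        obtain ⟨z, rfl⟩ := hy2 1
        rw [pow_one]
        have hadj : G (aeval A (chi a) x) z = G x (aeval A (chi (-a)) z) := by
          rw [aeval_adj h A hA, chi_comp_neg]
        rw [← hadj, eig_mem_rt hxa, h.zero_left]
      rw [g1, g2, add_zero]
    have hAx := hker x hall
    rw [hxa, smul_eq_zero] at hAx
    rcases hAx with h5 | h5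
    · rw [op_eq_zero_iff] at h5
      exact hre (by rw [h5]; rfl)
    · exact hx0 h5
  · intro a ha
    obtain ⟨⟨x, -, hx0, hxa⟩, hre⟩ := hS.1 a ha
    refine ⟨⟨x, hRL (hRS a ha (mem_rt.2 ⟨1, ?_⟩)), hx0, hxa⟩, hre⟩
    rw [pow_one]
    exact eig_mem_rt hxa

end

end Pool.Agent.T6.H18
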